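import Mathlib

/-!
# The field of fractions of `R[X]` over `Q[X]`, `Q` the field of fractions of `R`

* `exists_alg`: `K1` is a field of fractions of `R[X]`. `R → R[X] → K1` is injective, so it extends to `Q → K1` (`IsFractionRing.lift`), and `j : Q[X] → K1` is the evaluation of
  the coefficients with `X ↦ algebraMap X` (`Polynomial.eval₂RingHom`). `j (p.map ..) = algebraMap p` on constants and on `X`. `Q[X]` is the localization of `R[X]` at the
  nonzero constants (`Polynomial.isLocalization`), so `K1` is the field of fractions of `Q[X]`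
  (`IsFractionRing.isFractionRing_of_isDomain_of_isLocalization`, or directly: `j` is injective because a nonzero `q ∈ Q[X]` has a multiple `r q`, `r ∈ R`, `r ≠ 0`, with coefficients in `R`, and
  every element of `K1` is a quotient of elements of `R[X]`).
-/

set_option autoImplicit false

namespace Pool.Agent.H54.PL

open Polynomial

theorem exists_alg (R K1 : Type) [CommRing R] [IsDomain R] [Field K1] [Algebra R[X] K1] [IsFractionRing R[X] K1] :
    ∃ j : (FractionRing R)[X] →+* K1, (@IsFractionRing (FractionRing R)[X] _ K1 _ j.toAlgebra) ∧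
      ∀ p : R[X], j (p.map (algebraMap R (FractionRing R))) = algebraMap R[X] K1 p := by
  obtain ⟨i0, hi0⟩ : ∃ i0 : R →+* K1, i0 = (algebraMap R[X] K1).comp C := ⟨_, rfl⟩
  have hinj : Function.Injective i0 := by
    rw [hi0]
    exact (IsFractionRing.injective R[X] K1).comp C_injective
  obtain ⟨i, hi⟩ : ∃ i : FractionRing R →+* K1, i.comp (algebraMap R (FractionRing R)) = i0 :=
    ⟨IsFractionRing.lift hinj, RingHom.ext fun r => IsFractionRing.lift_algebraMap hinj r⟩
  obtain ⟨j, hj⟩ : ∃ j : (FractionRing R)[X] →+* K1, j = eval₂RingHom i (algebraMap R[X] K1 X) := ⟨_, rfl⟩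
  have hjp : ∀ p : R[X], j (p.map (algebraMap R (FractionRing R))) = algebraMap R[X] K1 p := by
    intro p
    rw [hj, coe_eval₂RingHom, eval₂_map, hi, hi0, ← hom_eval₂, eval₂_C_X]
  refine ⟨j, ?_, hjp⟩
  let _ : Algebra (FractionRing R)[X] K1 := j.toAlgebra
  let _ : Algebra R[X] (FractionRing R)[X] := (mapRingHom (algebraMap R (FractionRing R))).toAlgebra
  have : IsScalarTower R[X] (FractionRing R)[X] K1 := IsScalarTower.of_algebraMap_eq fun p => (hjp p).symm
  have : IsLocalization ((nonZeroDivisors R).map C) (FractionRing R)[X] :=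
    Polynomial.isLocalization (nonZeroDivisors R) (FractionRing R)
  exact IsFractionRing.isFractionRing_of_isDomain_of_isLocalization ((nonZeroDivisors R).map (C : R →+* R[X]))
    (FractionRing R)[X] K1

end Pool.Agent.H54.PL
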