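import Mathlib
import Pool.Agent.H98.FJ.P.Ext

/-!
# Lattices of rank two and their automorphism groups: definitions
-/

set_option autoImplicit false

namespace Pool.Agent.H54.PL

/-- the matrices which preserve the submodule `N` of `K ^ 2` -/
noncomputable def Gm {R K : Type} [CommRing R] [Field K] [Algebra R K] (N : Submodule R (Fin 2 → K)) :
    Subgroup (Matrix.GeneralLinearGroup (Fin 2) K) where
  carrier := {g | ∀ v, v ∈ N ↔ g.val.mulVec v ∈ N}
  mul_mem' := by
    intro g h hg hh v
    show v ∈ N ↔ (g.val * h.val).mulVec v ∈ N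
    rw [← Matrix.mulVec_mulVec]
    exact (hh v).trans (hg _)
  one_mem' := by
    intro v
    show v ∈ N ↔ (1 : Matrix (Fin 2) (Fin 2) K).mulVec v ∈ N
    rw [Matrix.one_mulVec]
  inv_mem' := by
    intro g hg v
    have h := hg ((g⁻¹).val.mulVec v)
    rw [Matrix.mulVec_mulVec, ← Units.val_mul, mul_inv_cancel, Units.val_one, Matrix.one_mulVec] at h
    exact h.symm

theorem mem_Gm {R K : Type} [CommRing R] [Field K] [Algebra R K] {N : Submodule R (Fin 2 → K)}
    {g : Matrix.GeneralLinearGroup (Fin 2) K} : g ∈ Gm N ↔ ∀ v, v ∈ N ↔ g.val.mulVec v ∈ N := Iff.rfl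

/-- every vector has a multiple in `N` -/
def Spans {R K : Type} [CommRing R] [Field K] [Algebra R K] (N : Submodule R (Fin 2 → K)) : Prop :=
  ∀ v : Fin 2 → K, ∃ r : R, r ≠ 0 ∧ r • v ∈ N

/-- the automorphism groups of the finitely generated lattices of rank two over `R` are in the class -/
def LC (C : (G : Type) → [Group G] → Prop) (R : Type) [CommRing R] : Prop :=
  ∀ (K : Type) [Field K] [Algebra R K] [IsFractionRing R K] (N : Submodule R (Fin 2 → K)),
    N.FG → Spans N → C (Gm N)

end Pool.Agent.H54.PL
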