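import Mathlib
import Pool.Agent.H54.PA.Main2
import Pool.Agent.H54.PL.Defs

/-!
# The stabilisers over a noetherian domain

`R` noetherian with field of fractions `K`, `g ∈ Au K`, `Lt R g` (`PA/Lat`) the lattice of the `v ∈ K ^ 2` for which there is `γ` with `g (C (v 0) * X 0 + C (v 1) * X 1 + C γ) ∈ PR R K`.

* `Lt_fg`: with `e`, `e'` of `exists_minor` the `K`-linear map `T v = (coeff e, coeff e') (g (C (v 0) * X 0 + C (v 1) * X 1))` is injective and maps `Lt R g` into `R ^ 2` (see the proof of `lattice` in `PA/Lat`), so `Lt R g`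
  is isomorphic to a submodule of the noetherian module `R ^ 2` (compare `exists_basis` in `H75/PA/Bas`).
* `stab_mem3`: `G` acts by automorphisms `ι x ∈ GR R K` with `φ' = g⁻¹ * ι x * g ∈ A K`. Let `Λ` be the linear part of `φ' ∈ A K` (`exists_lin K K` for `AR K K = A K ⊓ GR K K`, `GR K K` is everything; or directly with `mem_A`, `mem_L1`):
  `φ' (C (v 0) * X 0 + C (v 1) * X 1 + C γ) = C ((Λ v) 0) * X 0 + C ((Λ v) 1) * X 1 + C γ'`. If `v ∈ Lt R g` then `ι x (g (..)) ∈ PR`, and it is `g (φ' (..))`, so `Λ v ∈ Lt R g`; the same for the inverse. So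
  `x ↦ Λ` is a homomorphism to `Gm (Lt R g)`, in the class by `hR`. Two elements of its kernel commute: `φ' (X i) = X i + C (c i)` (`au_ext`). `ext_sol` (`PA/Lin`).
-/

set_option autoImplicit false

namespace Pool.Agent.H54.PL

open MvPolynomial Pool.Agent.H98.FJ Pool.Agent.H54.PA

variable {C : (G : Type) → [Group G] → Prop}

private theorem tau_R {R K : Type} [CommRing R] [IsDomain R] [Field K] [Algebra R K] [IsFractionRing R K]
    (N : Submodule R (Fin 2 → K)) (T : (Fin 2 → K) →ₗ[K] (Fin 2 → K))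
    (hTN : ∀ v ∈ N, ∀ i, T v i ∈ (algebraMap R K).range) :
    ∃ τ : N →ₗ[R] (Fin 2 → R), ∀ (v : N) (i : Fin 2), algebraMap R K (τ v i) = T (v : Fin 2 → K) i := by
  have hinj : Function.Injective (algebraMap R K) := IsFractionRing.injective R K
  choose t ht using fun (v : N) (i : Fin 2) => hTN v.1 v.2 i
  refine ⟨{ toFun := t, map_add' := ?_, map_smul' := ?_ }, ht⟩
  · intro v w
    funext i
    apply hinj
    rw [ht, Pi.add_apply, map_add, ht, ht, Submodule.coe_add, map_add, Pi.add_apply]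
  · intro r v
    funext i
    apply hinj
    rw [ht, Pi.smul_apply, smul_eq_mul, map_mul, RingHom.id_apply, ht, Submodule.coe_smul, ← algebraMap_smul K r (v : Fin 2 → K),
      map_smul, Pi.smul_apply, smul_eq_mul]

theorem Lt_fg {R K : Type} [CommRing R] [IsDomain R] [IsNoetherianRing R] [Field K] [Algebra R K] [IsFractionRing R K]
    (g : Au K) : (Lt R g).FG := by
  classical
  obtain ⟨e, e', he, he', hdet⟩ := exists_minor g
  let T : (Fin 2 → K) →ₗ[K] (Fin 2 → K) :=
    { toFun := fun v => ![v 0 * coeff e (g (X 0)) + v 1 * coeff e (g (X 1)),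
        v 0 * coeff e' (g (X 0)) + v 1 * coeff e' (g (X 1))]
      map_add' := by
        intro v w
        ext i
        fin_cases i
        · simp
          ring
        · simp
          ring
      map_smul' := by
        intro c v
        ext i
        fin_cases i
        · simp
          ring
        · simp
          ring }
  have hT : Function.Injective T := by
    rw [injective_iff_map_eq_zero]
    intro v hv
    have h0 : v 0 * coeff e (g (X 0)) + v 1 * coeff e (g (X 1)) = 0 := congrFun hv 0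
    have h1 : v 0 * coeff e' (g (X 0)) + v 1 * coeff e' (g (X 1)) = 0 := congrFun hv 1
    have h2 : v 0 = 0 := by
      have : (coeff e (g (X 0)) * coeff e' (g (X 1)) - coeff e' (g (X 0)) * coeff e (g (X 1))) * v 0 = 0 := by
        linear_combination coeff e' (g (X 1)) * h0 - coeff e (g (X 1)) * h1
      exact (mul_eq_zero.1 this).resolve_left hdet
    have h3 : v 1 = 0 := by
      have : (coeff e (g (X 0)) * coeff e' (g (X 1)) - coeff e' (g (X 0)) * coeff e (g (X 1))) * v 1 = 0 := by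
        linear_combination coeff e (g (X 0)) * h1 - coeff e' (g (X 0)) * h0
      exact (mul_eq_zero.1 this).resolve_left hdet
    ext i
    fin_cases i
    · exact h2
    · exact h3
  have hTN : ∀ v ∈ Lt R g, ∀ i, T v i ∈ (algebraMap R K).range := by
    rintro v ⟨γ, hγ⟩ i
    rw [map_lin', mem_PR] at hγ
    fin_cases i
    · have := hγ e
      rw [coeff_add, coeff_add, coeff_C_mul, coeff_C_mul, coeff_C, if_neg (Ne.symm he), add_zero] at this
      exact this
    · have := hγ e'
      rw [coeff_add, coeff_add, coeff_C_mul, coeff_C_mul, coeff_C, if_neg (Ne.symm he'), add_zero] at this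
      exact this
  obtain ⟨τ, hτ⟩ := tau_R (Lt R g) T hTN
  have hτi : Function.Injective τ := by
    intro v w h
    apply Subtype.ext
    apply hT
    funext i
    rw [← hτ v i, ← hτ w i, h]
  have : IsNoetherian R (Lt R g) := isNoetherian_of_injective τ hτi
  exact Module.Finite.iff_fg.1 inferInstance

private theorem mv2 {K : Type} [Field K] (M : Matrix (Fin 2) (Fin 2) K) (v : Fin 2 → K) (j : Fin 2) :
    M.mulVec v j = M j 0 * v 0 + M j 1 * v 1 := by
  show ∑ i, M j i * v i = _
  rw [Fin.sum_univ_two]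

private theorem form_AK {K : Type} [Field K] {φ : Au K} (hφ : φ ∈ A K) (i : Fin 2) : ∃ c : K,
    φ (X i) = MvPolynomial.C (coeff (Finsupp.single 0 1) (φ (X i))) * X 0 +
      MvPolynomial.C (coeff (Finsupp.single 1 1) (φ (X i))) * X 1 + MvPolynomial.C c := by
  have h := mem_A.1 hφ
  have h2 : φ (X i) ∈ L1 K := by
    fin_cases i
    · exact h.1
    · exact h.2
  obtain ⟨a, b, c, h3⟩ := mem_L1.1 h2
  have n1 : (Finsupp.single 0 1 : Fin 2 →₀ ℕ) ≠ 0 := by
    intro h
    have := DFunLike.congr_fun h 0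
    simp at this
  have n2 : (Finsupp.single 1 1 : Fin 2 →₀ ℕ) ≠ 0 := by
    intro h
    have := DFunLike.congr_fun h 1
    simp at this
  have n3 : (Finsupp.single 0 1 : Fin 2 →₀ ℕ) ≠ Finsupp.single 1 1 := by
    intro h
    have := DFunLike.congr_fun h 0
    simp at this
  refine ⟨c, ?_⟩
  have e0 : coeff (Finsupp.single 0 1) (φ (X i)) = a := by
    rw [h3, coeff_add, coeff_add, coeff_C_mul, coeff_C_mul, coeff_X, coeff_X, coeff_C, if_pos rfl, if_neg n3.symm,
      if_neg n1.symm]
    ring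
  have e1 : coeff (Finsupp.single 1 1) (φ (X i)) = b := by
    rw [h3, coeff_add, coeff_add, coeff_C_mul, coeff_C_mul, coeff_X, coeff_X, coeff_C, if_pos rfl, if_neg n3,
      if_neg n2.symm]
    ring
  rw [e0, e1]
  exact h3

private theorem GRK {K : Type} [Field K] (φ : Au K) : φ ∈ GR K K := by
  intro p
  have h : ∀ q : P K, q ∈ PR K K := fun q => mem_PR.2 fun e => ⟨coeff e q, rfl⟩
  exact ⟨fun _ => h _, fun _ => h _⟩

/-- the affine map on linear polynomials -/
private theorem app_lin {K : Type} [Field K] {φ : Au K} (hφ : φ ∈ A K) (M : Matrix (Fin 2) (Fin 2) K)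
    (hM : ∀ i j : Fin 2, M j i = coeff (Finsupp.single j 1) (φ (X i))) (v : Fin 2 → K) (γ : K) :
    ∃ γ' : K, φ (MvPolynomial.C (v 0) * X 0 + MvPolynomial.C (v 1) * X 1 + MvPolynomial.C γ) =
      MvPolynomial.C (M.mulVec v 0) * X 0 + MvPolynomial.C (M.mulVec v 1) * X 1 + MvPolynomial.C γ' := by
  obtain ⟨c, hc⟩ := form_AK hφ 0
  obtain ⟨d, hd⟩ := form_AK hφ 1
  rw [← hM, ← hM] at hc hd
  refine ⟨v 0 * c + v 1 * d + γ, ?_⟩
  rw [map_lin', hc, hd, mv2, mv2]
  simp only [C_add, C_mul]
  ring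

theorem stab_mem3 (hC : Inherits C) (hE : Extension C) (hS : ∀ (G : Type) [Group G], Group.IsSolvable G → C G)
    {R K : Type} [CommRing R] [IsDomain R] [IsNoetherianRing R] [Field K] [Algebra R K] [IsFractionRing R K]
    (hR : LC C R) (g : Au K) {G : Type} [Group G] (ι : G →* Au K) (hι : Function.Injective ι)
    (h1 : ∀ x, ι x ∈ GR R K) (h2 : ∀ x, g⁻¹ * ι x * g ∈ A K) : C G := by
  classical
  obtain ⟨Λ, hΛ⟩ := exists_lin K K Function.injective_id
  -- the homomorphism into the affine group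
  let κ : G →* AR K K :=
    { toFun := fun x => ⟨g⁻¹ * ι x * g, h2 x, GRK _⟩
      map_one' := Subtype.ext (by
        show g⁻¹ * ι 1 * g = 1
        rw [map_one]
        group)
      map_mul' := fun x y => Subtype.ext (by
        show g⁻¹ * ι (x * y) * g = (g⁻¹ * ι x * g) * (g⁻¹ * ι y * g)
        rw [map_mul]
        group) }
  have hκ : ∀ x, ((κ x : AR K K) : Au K) = g⁻¹ * ι x * g := fun x => rfl
  have hM : ∀ (x : G) (i j : Fin 2), (Λ (κ x)).val j i = coeff (Finsupp.single j 1) ((g⁻¹ * ι x * g) (X i)) := by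
    intro x i j
    exact hΛ (κ x) i j
  have hinv : ∀ (x : G) (v : Fin 2 → K), v ∈ Lt R g → (Λ (κ x)).val.mulVec v ∈ Lt R g := by
    rintro x v ⟨γ, hγ⟩
    obtain ⟨γ', hγ'⟩ := app_lin (h2 x) (Λ (κ x)).val (hM x) v γ
    refine ⟨γ', ?_⟩
    rw [← hγ']
    have e1 : g ((g⁻¹ * ι x * g) (MvPolynomial.C (v 0) * X 0 + MvPolynomial.C (v 1) * X 1 + MvPolynomial.C γ)) =
        ι x (g (MvPolynomial.C (v 0) * X 0 + MvPolynomial.C (v 1) * X 1 + MvPolynomial.C γ)) := by
      have e2 : g * (g⁻¹ * ι x * g) = ι x * g := by group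
      exact DFunLike.congr_fun e2 _
    rw [e1]
    exact (h1 x _).1 hγ
  have hmem : ∀ x : G, Λ (κ x) ∈ Gm (Lt R g) := by
    intro x v
    refine ⟨hinv x v, fun hv => ?_⟩
    have h3 := hinv x⁻¹ _ hv
    rw [Matrix.mulVec_mulVec, ← Units.val_mul, ← map_mul, ← map_mul, inv_mul_cancel, map_one, map_one, Units.val_one,
      Matrix.one_mulVec] at h3
    exact h3
  let f : G →* Gm (Lt R g) :=
    { toFun := fun x => ⟨Λ (κ x), hmem x⟩
      map_one' := Subtype.ext (by
        show Λ (κ 1) = 1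
        rw [map_one, map_one])
      map_mul' := fun x y => Subtype.ext (by
        show Λ (κ (x * y)) = Λ (κ x) * Λ (κ y)
        rw [map_mul, map_mul]) }
  have hQ : C (Gm (Lt R g)) := hR K (Lt R g) (Lt_fg g) (fun v => Lt_span g v)
  refine ext_sol hC hE hS f hQ fun x y hx hy => ?_
  have hf : ∀ z : G, f z = 1 → ∀ i : Fin 2, ∃ c : K, (g⁻¹ * ι z * g) (X i) = X i + MvPolynomial.C c := by
    intro z hz i
    have hz' : Λ (κ z) = 1 := congrArg Subtype.val hz
    obtain ⟨c, hc⟩ := form_AK (h2 z) i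
    refine ⟨c, ?_⟩
    rw [← hM, ← hM, hz', Units.val_one] at hc
    rw [hc]
    fin_cases i
    · show MvPolynomial.C ((1 : Matrix (Fin 2) (Fin 2) K) 0 0) * X 0 +
        MvPolynomial.C ((1 : Matrix (Fin 2) (Fin 2) K) 1 0) * X 1 + MvPolynomial.C c = X 0 + MvPolynomial.C c
      rw [Matrix.one_apply_eq, Matrix.one_apply_ne (by decide), map_one, map_zero]
      ring
    · show MvPolynomial.C ((1 : Matrix (Fin 2) (Fin 2) K) 0 1) * X 0 +
        MvPolynomial.C ((1 : Matrix (Fin 2) (Fin 2) K) 1 1) * X 1 + MvPolynomial.C c = X 1 + MvPolynomial.C c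
      rw [Matrix.one_apply_eq, Matrix.one_apply_ne (by decide), map_one, map_zero]
      ring
  choose c hc using hf x hx
  choose d hd using hf y hy
  have hCC : ∀ (φ : Au K) (t : K), φ (MvPolynomial.C t) = MvPolynomial.C t := fun φ t => by
    have := φ.commutes t
    rwa [algebraMap_eq] at this
  have key : ∀ i : Fin 2, ((g⁻¹ * ι x * g) * (g⁻¹ * ι y * g)) (X i) = ((g⁻¹ * ι y * g) * (g⁻¹ * ι x * g)) (X i) := by
    intro i
    show (g⁻¹ * ι x * g) ((g⁻¹ * ι y * g) (X i)) = (g⁻¹ * ι y * g) ((g⁻¹ * ι x * g) (X i))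
    rw [hc, hd, map_add, map_add, hc, hd, hCC, hCC]
    ring
  have h3 := au_ext (key 0) (key 1)
  have h4 : ι x * ι y = ι y * ι x := by
    have e1 : g * ((g⁻¹ * ι x * g) * (g⁻¹ * ι y * g)) * g⁻¹ = ι x * ι y := by group
    have e2 : g * ((g⁻¹ * ι y * g) * (g⁻¹ * ι x * g)) * g⁻¹ = ι y * ι x := by group
    rw [← e1, ← e2, h3]
  apply hι
  rw [map_mul, map_mul, h4]

end Pool.Agent.H54.PL
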