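import Mathlib
import Pool.Agent.H54.TT.Lau
import Pool.Agent.H54.TT.Gl2
import Pool.Agent.H93.TR.Defs

/-!
# The tree of `GL₂(Q[X])` at infinity

`GL₂(Q[X])` acts on the tree of the valuation at infinity (the order in the field of Laurent series, the variable has order `-1`);
the elements which fix a vertex have entries of bounded degree.
-/

set_option autoImplicit false

namespace Pool.Agent.H54.PL

open Polynomial Pool.Agent.H93.TR
open Pool.Agent.H54.TT

/-- the embedding in the Laurent series at infinity -/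
noncomputable def ji (Q : Type) [Field Q] : Q[X] →+* LS Q := (io Q (-1)).comp (Polynomial.toLaurent)

noncomputable def jg (Q : Type) [Field Q] : Matrix.GeneralLinearGroup (Fin 2) Q[X] →* Matrix.GeneralLinearGroup (Fin 2) (LS Q) :=
  Matrix.GeneralLinearGroup.map (ji Q)

theorem vd_jg (Q : Type) [Field Q] (g : Matrix.GeneralLinearGroup (Fin 2) Q[X]) :
    vd HahnSeries.order (jg Q g) = 0 := by
  have h1 : IsUnit (g.val.det) := (Matrix.isUnit_iff_isUnit_det _).1 g.isUnit
  obtain ⟨r, hr, hr'⟩ := Polynomial.isUnit_iff.1 h1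
  have h2 : ((jg Q g).det.val : LS Q) = ji Q (g.val.det) := by
    show (((ji Q).mapMatrix g.val).det : LS Q) = _
    rw [RingHom.map_det]
  unfold vd
  rw [h2, ← hr']
  show HahnSeries.order (io Q (-1) (Polynomial.toLaurent (Polynomial.C r))) = 0
  rw [Polynomial.toLaurent_C, io_C]
  exact HahnSeries.order_C

theorem toLaurent_coeff (Q : Type) [Field Q] (p : Q[X]) (n : ℕ) : (Polynomial.toLaurent p).coeff (n : ℤ) = p.coeff n := by
  induction p using Polynomial.induction_on' with
  | add p q hp hq =>
    rw [map_add, Polynomial.coeff_add, ← hp, ← hq]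
    rfl
  | monomial m a =>
    rw [← Polynomial.C_mul_X_pow_eq_monomial, Polynomial.toLaurent_C_mul_X_pow,
      ← LaurentPolynomial.single_eq_C_mul_T, AddMonoidAlgebra.coeff_single, Finsupp.single_apply,
      Polynomial.coeff_C_mul_X_pow]
    by_cases h : m = n
    · rw [if_pos (by rw [h]), if_pos h.symm]
    · rw [if_neg (fun h' => h (by exact_mod_cast h')), if_neg (fun h' => h h'.symm)]

theorem exists_tree (Q : Type) [Field Q] : ∃ (V : Type) (_ : MulAction (Matrix.GeneralLinearGroup (Fin 2) Q[X]) V)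
    (X : SimpleGraph V), OnTree (Matrix.GeneralLinearGroup (Fin 2) Q[X]) X ∧
      ∀ v : V, ∃ D : ℕ, ∀ g : Matrix.GeneralLinearGroup (Fin 2) Q[X], g • v = v →
        ∀ i j, (g.val i j).natDegree ≤ D := by
  classical
  let hv := isDV_order (FractionRing Q)
  refine ⟨Vx hv, MulAction.compHom (Vx hv) (jg Q), Tv hv, ?_, ?_⟩
  · exact @OnTree.mk _ _ _ (MulAction.compHom (Vx hv) (jg Q)) _ (isTree hv)
      (fun g x y h => adj_smul hv (jg Q g) x y h)
  · intro x
    obtain ⟨N, hN⟩ := stab_bdd hv x
    refine ⟨(-N).toNat, ?_⟩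
    intro g hg i j
    have h1 : GeM HahnSeries.order N (jg Q g).val := hN _ (vd_jg Q g) hg
    have h2 := h1 i j
    rw [Polynomial.natDegree_le_iff_coeff_eq_zero]
    intro n hn
    have h3 : (Polynomial.toLaurent (g.val i j)).coeff (n : ℤ) = 0 := by
      refine coeff_of_ge Q (-1) (Or.inr rfl) _ N h2 n ?_
      have h4 := Int.self_le_toNat (-N)
      have h5 : ((-N).toNat : ℤ) < n := by exact_mod_cast hn
      linarith
    rw [← h3, toLaurent_coeff]

end Pool.Agent.H54.PL
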