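import Mathlib
import Pool.Agent.H54.PL.Defs

/-!
# Invariance of `LC` under isomorphisms of rings; fields

* `lc_equiv`: let `K` be a field of fractions of `R'`. It is one of `R` through `e` (`RingHom.toAlgebra ((algebraMap R' K).comp e)`;
  `IsFractionRing`/`IsLocalization` transfers, for instance `IsLocalization.isLocalization_of_base_ringEquiv`). `N` is an `R`-submodule with the same carrier;
  finitely generated (the same generators) and spanning. `Gm` is the same subgroup.
* `lc_field`: for a field `K0` and a field of fractions `K` of `K0` the algebra map is bijective; `Gm N` is a subgroup of `GL₂(K)`, isomorphic to `GL₂(K0)`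
  (`Inherits.sub`, `Inherits.of_injective`, `Matrix.GeneralLinearGroup.map` of the inverse isomorphism).
-/

set_option autoImplicit false

namespace Pool.Agent.H54.PL

open Pool.Agent.H98.FJ

variable {C : (G : Type) → [Group G] → Prop}

theorem smul_transfer {R R' K : Type} [CommRing R] [CommRing R'] [Field K] [Algebra R K] [Algebra R' K]
    (e : R ≃+* R') (he : ∀ r, algebraMap R' K (e r) = algebraMap R K r) (r : R) (v : Fin 2 → K) :
    r • v = (e r) • v := by
  funext i
  rw [Pi.smul_apply, Pi.smul_apply, Algebra.smul_def, Algebra.smul_def, he]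

theorem lc_transfer {R R' K : Type} [CommRing R] [CommRing R'] [Field K] [Algebra R K] [Algebra R' K]
    (e : R ≃+* R') (he : ∀ r, algebraMap R' K (e r) = algebraMap R K r) (N : Submodule R' (Fin 2 → K))
    (hN : N.FG) (hS : Spans N) :
    ∃ N' : Submodule R (Fin 2 → K), N'.FG ∧ Spans N' ∧ Gm N' = Gm N := by
  let N' : Submodule R (Fin 2 → K) :=
    { carrier := {v | v ∈ N}
      add_mem' := fun {a b} ha hb => N.add_mem ha hb
      zero_mem' := N.zero_mem
      smul_mem' := by
        intro r v hv
        show r • v ∈ N
        rw [smul_transfer e he]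
        exact N.smul_mem _ hv }
  have hmem : ∀ v, v ∈ N' ↔ v ∈ N := fun v => Iff.rfl
  refine ⟨N', ?_, ?_, ?_⟩
  · obtain ⟨S, hS'⟩ := hN
    refine ⟨S, le_antisymm ?_ ?_⟩
    · rw [Submodule.span_le]
      intro v hv
      show v ∈ N
      rw [← hS']
      exact Submodule.subset_span hv
    · intro v hv
      have hv1 : v ∈ N := hv
      rw [← hS'] at hv1
      induction hv1 using Submodule.span_induction with
      | mem x hx => exact Submodule.subset_span hx
      | zero => exact Submodule.zero_mem _
      | add x y hx hy ihx ihy =>
        exact Submodule.add_mem _ (ihx (by rw [hmem, ← hS']; exact hx)) (ihy (by rw [hmem, ← hS']; exact hy))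
      | smul r x hx ih =>
        have h1 : r • x = (e.symm r) • x := by
          rw [smul_transfer e he, e.apply_symm_apply]
        rw [h1]
        exact Submodule.smul_mem _ _ (ih (by rw [hmem, ← hS']; exact hx))
  · intro v
    obtain ⟨r, hr, hrv⟩ := hS v
    refine ⟨e.symm r, ?_, ?_⟩
    · intro h0
      apply hr
      rw [← e.apply_symm_apply r, h0, map_zero]
    · rw [hmem, smul_transfer e he, e.apply_symm_apply]
      exact hrv
  · ext g
    rw [mem_Gm, mem_Gm]
    exact Iff.rfl

theorem lc_equiv {R R' : Type} [CommRing R] [CommRing R'] (e : R ≃+* R') (h : LC C R) : LC C R' := by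
  intro K _ _ hK N hN hS
  let _ : Algebra R K := ((algebraMap R' K).comp (e.symm.symm : R →+* R')).toAlgebra
  have hfr : IsFractionRing R K := (IsFractionRing.isFractionRing_iff_of_base_ringEquiv (S := K) e.symm).1 hK
  obtain ⟨N', h1, h2, h3⟩ := lc_transfer (R := R) (R' := R') (K := K) e (fun r => rfl) N hN hS
  have h4 := h K N' h1 h2
  rw [h3] at h4
  exact h4

theorem lc_field (hC : Inherits C) (K : Type) [Field K] (h : C (Matrix.GeneralLinearGroup (Fin 2) K)) : LC C K := by
  intro K1 _ _ hK1 N _ _
  have hb : Function.Bijective (algebraMap K K1) :=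
    IsField.localization_map_bijective (M := nonZeroDivisors K) (by simp) (Field.toIsField K)
  let f : K ≃+* K1 := RingEquiv.ofBijective (algebraMap K K1) hb
  have hinj : Function.Injective (Matrix.GeneralLinearGroup.map (n := Fin 2) (f.symm : K1 →+* K)) := by
    intro a b hab
    apply Units.ext
    ext i j
    have h1 := congrArg (fun g : Matrix.GeneralLinearGroup (Fin 2) K => g.val i j) hab
    exact f.symm.injective h1
  exact hC.of_injective ((Matrix.GeneralLinearGroup.map (n := Fin 2) (f.symm : K1 →+* K)).comp (Gm N).subtype)
    (hinj.comp (Gm N).subtype_injective) h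

end Pool.Agent.H54.PL
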