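import Mathlib
import Pool.Agent.H93.TR.Main
import Pool.Agent.H76.VC.Sub

/-!
# Actions on trees with local homomorphisms

`G` acts on a tree `X`; `f n : G → Q n` homomorphisms to groups of the class, such that for every vertex `v` there is `n` such that an element of `G` which fixes `v` and is in the kernels of
`f m`, `m ≤ n`, is trivial. Then `G` is in the class.

* We may assume that `G` is finitely generated (`Inherits.union` over the finite subsets of `G`, subgroups `Subgroup.closure`; the hypotheses restrict to subgroups).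
* `exists_subtree` (`H76/VC/Sub`): an invariant subtree `Y` with vertices `W`; with `B n a b := ∀ g : G, g • a = a → g • b = b → (∀ m ≤ n, f m g = 1) → g = 1` (monotone in `n`; invariant under `G`: conjugate;
  for an edge `a b` of `X` take the `n` of the vertex `a`) there is `N` with `B N a b` for all edges `a b` of `Y`.
* `H93.TR.main` for `G` on `Y`, `Q = ∀ m : Fin (N + 1), Q m` (`Inherits.pi`), `f = Pi.monoidHom ..`: `EdgeFree`. The vertex stabilisers: they inject in a finite product of groups `Q m`.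
-/

set_option autoImplicit false

namespace Pool.Agent.H54.PL

open Pool.Agent.H98.FJ Pool.Agent.H93.TR

variable {C : (G : Type) → [Group G] → Prop}

private theorem loc_fg (hC : Inherits C) (hE : Extension C) {G V : Type} [Group G] [MulAction G V] {X : SimpleGraph V}
    (hfg : Group.FG G) (hX : OnTree G X) (Q : ℕ → Type) [∀ n, Group (Q n)] (hQ : ∀ n, C (Q n)) (f : ∀ n, G →* Q n)
    (hf : ∀ v : V, ∃ n : ℕ, ∀ g : G, g • v = v → (∀ m ≤ n, f m g = 1) → g = 1) : C G := by
  obtain ⟨W, Y, hY, -, hB⟩ := Pool.Agent.H76.VC.exists_subtree hX hfg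
  obtain ⟨N, hN⟩ := hB (fun n a b => ∀ g : G, g • a = a → g • b = b → (∀ m ≤ n, f m g = 1) → g = 1)
    (fun m n a b hmn h g h1 h2 h3 => h g h1 h2 fun k hk => h3 k (hk.trans hmn))
    (by
      intro n h a b hab g h1 h2 h3
      have h4 : h⁻¹ * g * h = 1 := by
        refine hab _ ?_ ?_ fun m hm => ?_
        · rw [mul_smul, mul_smul, h1, inv_smul_smul]
        · rw [mul_smul, mul_smul, h2, inv_smul_smul]
        · rw [map_mul, map_mul, h3 m hm, mul_one, ← map_mul, inv_mul_cancel, map_one]
      have h5 : g = h * (h⁻¹ * g * h) * h⁻¹ := by group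
      rw [h5, h4, mul_one, mul_inv_cancel])
    (by
      intro a b _
      obtain ⟨n, hn⟩ := hf a
      exact ⟨n, fun g h1 _ h3 => hn g h1 h3⟩)
  let F : ∀ n : ℕ, G →* ∀ m : Fin (n + 1), Q m := fun n => MonoidHom.pi fun m => f m
  have hF : ∀ n g, F n g = 1 ↔ ∀ m ≤ n, f m g = 1 := by
    intro n g
    constructor
    · intro h m hm
      exact congrFun h ⟨m, Nat.lt_succ_of_le hm⟩
    · intro h
      funext m
      exact h m (Nat.lt_succ_iff.1 m.2)
  have hQn : ∀ n : ℕ, C (∀ m : Fin (n + 1), Q m) := fun n => hC.pi (Fin (n + 1)) inferInstance _ fun m => hQ m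
  refine main hC hE hY ?_ (hQn N) (F N) ?_
  · intro v
    obtain ⟨n, hn⟩ := hf (v : V)
    refine hC.of_injective ((F n).comp (MulAction.stabilizer G v).subtype) ?_ (hQn n)
    rw [injective_iff_map_eq_one]
    intro g hg
    apply Subtype.ext
    exact hn g (congrArg Subtype.val (MulAction.mem_stabilizer_iff.1 g.2)) ((hF n g).1 hg)
  · intro g hg v w hvw h1 h2
    exact hN v w hvw g (congrArg Subtype.val h1) (congrArg Subtype.val h2) ((hF N g).1 (MonoidHom.mem_ker.1 hg))

theorem local_tree (hC : Inherits C) (hE : Extension C) {G V : Type} [Group G] [MulAction G V] {X : SimpleGraph V}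
    (hX : OnTree G X) (Q : ℕ → Type) [∀ n, Group (Q n)] (hQ : ∀ n, C (Q n)) (f : ∀ n, G →* Q n)
    (hf : ∀ v : V, ∃ n : ℕ, ∀ g : G, g • v = v → (∀ m ≤ n, f m g = 1) → g = 1) : C G := by
  classical
  refine hC.union (ι := Finset G) (fun s => Subgroup.closure (s : Set G)) (fun s t h => Subgroup.closure_mono (by exact_mod_cast h))
    (fun g => ⟨{g}, Subgroup.subset_closure (by simp)⟩) fun s => ?_
  have hXs : OnTree (Subgroup.closure (s : Set G)) X := ⟨hX.tree, fun g v w h => hX.adj (g : G) v w h⟩
  refine loc_fg hC hE ((Group.fg_iff_subgroup_fg _).2 ⟨s, rfl⟩) hXs Q hQ (fun n => (f n).comp (Subgroup.subtype _)) fun v => ?_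
  obtain ⟨n, hn⟩ := hf v
  exact ⟨n, fun g h1 h2 => Subtype.ext (hn g h1 h2)⟩

end Pool.Agent.H54.PL
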