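import Mathlib

/-!
# Specialisations separate matrices of bounded degree

`g - 1` has entries of degree at most `D` (`natDegree_sub_le`, `natDegree 1 = 0`) which vanish at the `D + 1` different points `0, 1, .., D` (characteristic zero), so they are zero
(`Polynomial.eq_zero_of_natDegree_lt_card_of_eval_eq_zero'` or `Polynomial.eq_of_degree_le_of_eval_finset_eq` ..).
-/

set_option autoImplicit false

namespace Pool.Agent.H54.PL

open Polynomial

theorem eq_one_of_eval (Q : Type) [Field Q] [CharZero Q] {D : ℕ} {g : Matrix.GeneralLinearGroup (Fin 2) Q[X]}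
    (hD : ∀ i j, (g.val i j).natDegree ≤ D)
    (h : ∀ n : ℕ, n ≤ D → Matrix.GeneralLinearGroup.map (Polynomial.evalRingHom (n : Q)) g = 1) : g = 1 := by
  classical
  have h1 : ∀ (i j : Fin 2) (n : ℕ), n ≤ D → (g.val i j).eval (n : Q) = (1 : Matrix (Fin 2) (Fin 2) Q) i j := by
    intro i j n hn
    have h2 := congrArg (fun u : Matrix.GeneralLinearGroup (Fin 2) Q => u.val i j) (h n hn)
    exact h2
  have h3 : ∀ i j : Fin 2, g.val i j = C ((1 : Matrix (Fin 2) (Fin 2) Q) i j) := by
    intro i j
    rw [← sub_eq_zero]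
    refine Polynomial.eq_zero_of_natDegree_lt_card_of_eval_eq_zero' _ ((Finset.range (D + 1)).image (fun n : ℕ => (n : Q))) ?_ ?_
    · intro x hx
      obtain ⟨n, hn, rfl⟩ := Finset.mem_image.1 hx
      rw [eval_sub, eval_C, h1 i j n (Nat.lt_succ_iff.1 (Finset.mem_range.1 hn)), sub_self]
    · rw [Finset.card_image_of_injective _ Nat.cast_injective, Finset.card_range]
      refine Nat.lt_succ_of_le ((natDegree_sub_le _ _).trans (max_le (hD i j) ?_))
      rw [natDegree_C]
      exact Nat.zero_le _
  apply Units.ext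
  ext1 i j
  rw [h3 i j]
  by_cases hij : i = j
  · rw [hij, Matrix.one_apply_eq, C_1]
    exact (Matrix.one_apply_eq j).symm
  · rw [Matrix.one_apply_ne hij, C_0]
    exact (Matrix.one_apply_ne hij).symm

end Pool.Agent.H54.PL
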