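import Mathlib
import Pool.Agent.H54.PL.Defs
import Pool.Agent.H75.PA.Bas

/-!
# A frame for a lattice

`A → B → K1` injective homomorphisms, `B` a principal ideal domain with field of fractions `K1`, `N ⊂ K1 ^ 2` a finitely generated `A`-submodule which spans.

* `exists_frame`: `M = Submodule.span B N` is a finitely generated `B`-submodule (the generators of `N`; `B` acts on `K1 ^ 2` through `K1`), torsion-free, so free
  (`Module.Free` for finite torsion-free modules over a principal ideal ring: `Module.free_of_finite_type_torsion_free'`, `Submodule.basisOfPidOfLE` ...). A basis `b : Fin n → M` is linearly independent over `K1`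
  (`LinearIndependent.iff_fractionRing B K1`), and spans `K1 ^ 2` over `K1` because `N` does; so `n = 2` (compare `Pool/Agent/H75/PA/Bas.lean`, `exists_basis`, the same argument with another finiteness condition; it may be
  possible to use it: clear denominators of the generators of `N` to get a `T`). Let `g` be the matrix with columns `b 0`, `b 1` (invertible: `Matrix.isUnit_det_iff`/`Matrix.GeneralLinearGroup.mkOfDetNeZero`, or
  `Basis.toMatrix`): `M = {g (j w) : w ∈ B ^ 2}`.
-/

set_option autoImplicit false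

namespace Pool.Agent.H54.PL

theorem exists_frame {A B K1 : Type} [CommRing A] [CommRing B] [IsDomain B] [IsPrincipalIdealRing B] [Field K1]
    [Algebra A K1] [Algebra B K1] [IsFractionRing B K1] (φ : A →+* B)
    (hφ : ∀ a, algebraMap B K1 (φ a) = algebraMap A K1 a) (N : Submodule A (Fin 2 → K1)) (hN : N.FG) (hs : Spans N)
    (hA : Function.Injective (algebraMap A K1)) :
    ∃ g : Matrix.GeneralLinearGroup (Fin 2) K1,
      (∀ v ∈ N, ∃ w : Fin 2 → B, v = g.val.mulVec (fun i => algebraMap B K1 (w i))) ∧
      (∀ w : Fin 2 → B, g.val.mulVec (fun i => algebraMap B K1 (w i)) ∈ Submodule.span B (N : Set (Fin 2 → K1))) := by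
  classical
  have hsm : ∀ (a : A) (v : Fin 2 → K1), a • v = φ a • v := by
    intro a v
    rw [← algebraMap_smul K1 a v, ← hφ a, algebraMap_smul]
  obtain ⟨S, hS⟩ := hN
  obtain ⟨d, hd⟩ := IsLocalization.exist_integer_multiples_of_finset (nonZeroDivisors B)
    ((S ×ˢ (Finset.univ : Finset (Fin 2))).image fun p => (p.1 p.2 : K1))
  have hd0 : (d : B) ≠ 0 := nonZeroDivisors.coe_ne_zero d
  have hdK : algebraMap B K1 (d : B) ≠ 0 := by
    rw [Ne, IsFractionRing.to_map_eq_zero_iff]
    exact hd0
  have hNd : ∀ v ∈ N, ∀ i, ∃ x : B, algebraMap B K1 x = algebraMap B K1 (d : B) * v i := by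
    intro v hv i
    rw [← hS] at hv
    induction hv using Submodule.span_induction with
    | mem v hv =>
      have h1 := hd (v i) (Finset.mem_image.2 ⟨(v, i), Finset.mem_product.2 ⟨hv, Finset.mem_univ i⟩, rfl⟩)
      obtain ⟨x, hx⟩ := h1
      refine ⟨x, ?_⟩
      rw [hx, Algebra.smul_def]
    | zero => exact ⟨0, by simp⟩
    | add v w _ _ hv hw =>
      obtain ⟨x, hx⟩ := hv
      obtain ⟨y, hy⟩ := hw
      exact ⟨x + y, by rw [map_add, hx, hy, Pi.add_apply, mul_add]⟩
    | smul a v _ hv =>
      obtain ⟨x, hx⟩ := hv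
      refine ⟨φ a * x, ?_⟩
      rw [hsm, map_mul, hx, Pi.smul_apply, Algebra.smul_def]
      ring
  have hMd : ∀ v ∈ Submodule.span B (N : Set (Fin 2 → K1)), ∀ i,
      ∃ x : B, algebraMap B K1 x = algebraMap B K1 (d : B) * v i := by
    intro v hv i
    induction hv using Submodule.span_induction with
    | mem v hv => exact hNd v hv i
    | zero => exact ⟨0, by simp⟩
    | add v w _ _ hv hw =>
      obtain ⟨x, hx⟩ := hv
      obtain ⟨y, hy⟩ := hw
      exact ⟨x + y, by rw [map_add, hx, hy, Pi.add_apply, mul_add]⟩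
    | smul a v _ hv =>
      obtain ⟨x, hx⟩ := hv
      refine ⟨a * x, ?_⟩
      rw [map_mul, hx, Pi.smul_apply, Algebra.smul_def]
      ring
  obtain ⟨n, hn1, hn2, hn3⟩ := Pool.Agent.H75.PA.exists_basis B K1 (Submodule.span B (N : Set (Fin 2 → K1)))
    (by
      intro v
      obtain ⟨r, hr, hrv⟩ := hs v
      refine ⟨φ r, ?_, ?_⟩
      · intro h0
        apply hr
        apply hA
        rw [← hφ r, h0, map_zero, map_zero]
      · rw [← hsm]
        exact Submodule.subset_span hrv)
    ((algebraMap B K1 (d : B)) • LinearMap.id)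
    (by
      intro v w hvw
      funext i
      have h1 := congrFun hvw i
      simp only [LinearMap.smul_apply, LinearMap.id_apply, Pi.smul_apply, smul_eq_mul] at h1
      exact mul_left_cancel₀ hdK h1)
    (by
      intro v hv i
      obtain ⟨x, hx⟩ := hMd v hv i
      exact ⟨x, by rw [hx]; rfl⟩)
  have hdet : (Matrix.of fun i j => n j i).det ≠ 0 := by
    have h1 : IsUnit (Matrix.of n) := Matrix.linearIndependent_rows_iff_isUnit.1 hn2
    have h2 := (Matrix.isUnit_iff_isUnit_det _).1 h1
    have h3 : (Matrix.of fun i j => n j i) = (Matrix.of n).transpose := by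
      ext i j
      rfl
    rw [h3, Matrix.det_transpose]
    exact h2.ne_zero
  have hmul : ∀ w : Fin 2 → B, (Matrix.of fun i j => n j i).mulVec (fun i => algebraMap B K1 (w i)) =
      w 0 • n 0 + w 1 • n 1 := by
    intro w
    funext i
    rw [Matrix.mulVec, dotProduct, Fin.sum_univ_two, Pi.add_apply, Pi.smul_apply, Pi.smul_apply,
      Algebra.smul_def, Algebra.smul_def]
    show n 0 i * algebraMap B K1 (w 0) + n 1 i * algebraMap B K1 (w 1) = _
    ring
  refine ⟨Matrix.GeneralLinearGroup.mkOfDetNeZero _ hdet, ?_, ?_⟩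
  · intro v hv
    obtain ⟨w, hw⟩ := hn3 v (Submodule.subset_span hv)
    refine ⟨w, ?_⟩
    rw [hw]
    exact (hmul w).symm
  · intro w
    show (Matrix.of fun i j => n j i).mulVec (fun i => algebraMap B K1 (w i)) ∈ _
    rw [hmul w]
    exact Submodule.add_mem _ (Submodule.smul_mem _ _ (hn1 0)) (Submodule.smul_mem _ _ (hn1 1))

end Pool.Agent.H54.PL
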