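import Mathlib
import Pool.Agent.H54.PL.Alg
import Pool.Agent.H54.PL.Frm

/-!
# The automorphisms of a lattice over `R[X]` as matrices over `Q[X]`, and their specialisations

`Q` the field of fractions of `R`, `B = Q[X]`, `N ⊂ K1 ^ 2` a lattice over `R[X]`; `j`, `g` from `exists_alg`, `exists_frame` (with `A = R[X]`, `φ = Polynomial.mapRingHom (algebraMap R Q)`,
`letI := j.toAlgebra`).

* `exists_mat`: for `γ ∈ Gm N` the matrix `g⁻¹ γ g` has entries in `j(B)`: for `w ∈ B ^ 2`, `g (j w)` is a `B`-combination of elements of `N` (span induction), `γ` is `K1`-linear and maps `N` to `N`, and elements of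
  `N` are in `g (j B ^ 2)`; take `w = Pi.single i 1`. The same for `γ⁻¹`. So there is exactly one `θ γ ∈ GL₂(B)` with `g⁻¹ γ g = j (θ γ)`; a homomorphism, injective (`j` is injective).
* `N'' = {w ∈ B ^ 2 | g (j w) ∈ N}`, an `R[X]`-module, isomorphic to `N`, so finitely generated: `w_1, .., w_m`. `θ γ w ∈ N''` iff `w ∈ N''` (as `γ ∈ Gm N`). For `c ∈ R` let
  `Nc = {ev_c w : w ∈ N''} ⊂ Q ^ 2` (`ev_c = Polynomial.eval (algebraMap R Q c)` in each coordinate), an `R`-submodule, generated by `ev_c w_1, .., ev_c w_m`
  (`ev_c (p w) = p(c) ev_c w` for `p ∈ R[X]`). It spans: each `e_i ∈ B ^ 2` is a `B`-combination of elements of `N''` (second property of `g`), so `ev_c e_i = e_i ∈ Q ^ 2` is a `Q`-combination of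
  elements of `Nc`; clear denominators. `ev_c (θ γ)` and `ev_c (θ γ⁻¹)` map `Nc` into itself, so `ev_c (θ γ) ∈ Gm Nc`.
-/

set_option autoImplicit false

namespace Pool.Agent.H54.PL

open Polynomial

/-- a matrix over the subring: inverse images of conjugates -/
private theorem exists_GL {B K1 : Type} [CommRing B] [Field K1] (j : B →+* K1) (hj : Function.Injective j)
    (a : Matrix.GeneralLinearGroup (Fin 2) K1)
    (h : ∀ w : Fin 2 → B, ∃ w' : Fin 2 → B, a.val.mulVec (fun i => j (w i)) = fun i => j (w' i))
    (h' : ∀ w : Fin 2 → B, ∃ w' : Fin 2 → B, (a⁻¹).val.mulVec (fun i => j (w i)) = fun i => j (w' i)) :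
    ∃ m : Matrix.GeneralLinearGroup (Fin 2) B, Matrix.GeneralLinearGroup.map j m = a := by
  classical
  have key : ∀ b : Matrix (Fin 2) (Fin 2) K1,
      (∀ w : Fin 2 → B, ∃ w' : Fin 2 → B, b.mulVec (fun i => j (w i)) = fun i => j (w' i)) →
      ∃ m : Matrix (Fin 2) (Fin 2) B, m.map j = b := by
    intro b hb
    choose w' hw' using fun k : Fin 2 => hb (Pi.single k 1)
    refine ⟨Matrix.of fun i k => w' k i, ?_⟩
    ext i k
    have h1 := congrFun (hw' k) i
    have h2 : (fun i => j ((Pi.single k 1 : Fin 2 → B) i)) = (Pi.single k 1 : Fin 2 → K1) := by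
      funext l
      by_cases hl : l = k
      · subst hl
        simp
      · simp [hl]
    rw [h2, Matrix.mulVec_single_one] at h1
    rw [Matrix.map_apply, Matrix.of_apply]
    exact h1.symm
  obtain ⟨m, hm⟩ := key a.val h
  obtain ⟨m', hm'⟩ := key (a⁻¹).val h'
  have hinj : Function.Injective (fun b : Matrix (Fin 2) (Fin 2) B => b.map j) := by
    intro b b' hb
    ext i k
    have := congrFun (congrFun hb i) k
    exact hj this
  have e1 : m * m' = 1 := by
    apply hinj
    show (m * m').map j = (1 : Matrix (Fin 2) (Fin 2) B).map j
    rw [Matrix.map_mul, hm, hm', Matrix.map_one _ (map_zero j) (map_one j), ← Units.val_mul, mul_inv_cancel, Units.val_one]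
  have e2 : m' * m = 1 := by
    apply hinj
    show (m' * m).map j = (1 : Matrix (Fin 2) (Fin 2) B).map j
    rw [Matrix.map_mul, hm, hm', Matrix.map_one _ (map_zero j) (map_one j), ← Units.val_mul, inv_mul_cancel, Units.val_one]
  refine ⟨⟨m, m', e1, e2⟩, ?_⟩
  apply Units.ext
  exact hm

private theorem mulVec_map {S T : Type} [CommRing S] [CommRing T] (f : S →+* T) (m : Matrix (Fin 2) (Fin 2) S)
    (w : Fin 2 → S) : (m.map f).mulVec (fun i => f (w i)) = fun i => f (m.mulVec w i) := by
  funext i
  exact (RingHom.map_mulVec f m w i).symm

theorem exists_theta (R K1 : Type) [CommRing R] [IsDomain R] [Field K1] [Algebra R[X] K1] [IsFractionRing R[X] K1]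
    (N : Submodule R[X] (Fin 2 → K1)) (hN : N.FG) (hs : Spans N) :
    ∃ θ : Gm N →* Matrix.GeneralLinearGroup (Fin 2) (FractionRing R)[X], Function.Injective θ ∧
      ∀ c : R, ∃ Nc : Submodule R (Fin 2 → FractionRing R), Nc.FG ∧ Spans Nc ∧
        ∀ γ : Gm N, Matrix.GeneralLinearGroup.map (Polynomial.evalRingHom (algebraMap R (FractionRing R) c)) (θ γ) ∈
          Gm Nc := by
  classical
  obtain ⟨j, hfr, hj⟩ := exists_alg R K1
  let _ : Algebra (FractionRing R)[X] K1 := j.toAlgebra
  have hfr' : IsFractionRing (FractionRing R)[X] K1 := hfr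
  have hjinj : Function.Injective j := IsFractionRing.injective (FractionRing R)[X] K1
  obtain ⟨g, hg1, hg2⟩ := exists_frame (A := R[X]) (B := (FractionRing R)[X]) (K1 := K1)
    (Polynomial.mapRingHom (algebraMap R (FractionRing R))) (fun a => hj a) N hN hs
    (IsFractionRing.injective R[X] K1)
  replace hg1 : ∀ v ∈ N, ∃ w : Fin 2 → (FractionRing R)[X], v = g.val.mulVec (fun i => j (w i)) := hg1
  replace hg2 : ∀ w : Fin 2 → (FractionRing R)[X],
    g.val.mulVec (fun i => j (w i)) ∈ Submodule.span (FractionRing R)[X] (N : Set (Fin 2 → K1)) := hg2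
  have hginj : ∀ v v' : Fin 2 → K1, g.val.mulVec v = g.val.mulVec v' → v = v' := by
    intro v v' h
    have h1 := congrArg (fun u => (g⁻¹).val.mulVec u) h
    simp only [Matrix.mulVec_mulVec] at h1
    rwa [← Units.val_mul, inv_mul_cancel, Units.val_one, Matrix.one_mulVec, Matrix.one_mulVec] at h1
  have hgj : ∀ w w' : Fin 2 → (FractionRing R)[X],
      g.val.mulVec (fun i => j (w i)) = g.val.mulVec (fun i => j (w' i)) → w = w' := by
    intro w w' h
    have h1 := hginj _ _ h
    funext i
    exact hjinj (congrFun h1 i)
  have hsmul : ∀ (b : (FractionRing R)[X]) (v : Fin 2 → K1), b • v = j b • v := by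
    intro b v
    funext i
    show b • v i = j b • v i
    rw [Algebra.smul_def]
    rfl
  have hsmulA : ∀ (a : R[X]) (v : Fin 2 → K1), a • v = j (a.map (algebraMap R (FractionRing R))) • v := by
    intro a v
    funext i
    show a • v i = j (a.map (algebraMap R (FractionRing R))) * v i
    rw [Algebra.smul_def, hj]
  -- the span over B
  have hspan : ∀ v ∈ Submodule.span (FractionRing R)[X] (N : Set (Fin 2 → K1)),
      ∃ w : Fin 2 → (FractionRing R)[X], v = g.val.mulVec (fun i => j (w i)) := by
    intro v hv
    induction hv using Submodule.span_induction with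
    | mem v hv => exact hg1 v hv
    | zero =>
      refine ⟨0, ?_⟩
      have : (fun i => j ((0 : Fin 2 → (FractionRing R)[X]) i)) = (0 : Fin 2 → K1) := by
        funext i
        exact map_zero j
      rw [this, Matrix.mulVec_zero]
    | add v v' _ _ h h' =>
      obtain ⟨w, hw⟩ := h
      obtain ⟨w', hw'⟩ := h'
      refine ⟨w + w', ?_⟩
      have : (fun i => j ((w + w') i)) = (fun i => j (w i)) + fun i => j (w' i) := by
        funext i
        exact map_add j _ _
      rw [this, Matrix.mulVec_add, ← hw, ← hw']
    | smul b v _ h =>
      obtain ⟨w, hw⟩ := h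
      refine ⟨b • w, ?_⟩
      have : (fun i => j ((b • w) i)) = j b • fun i => j (w i) := by
        funext i
        exact map_mul j _ _
      rw [this, Matrix.mulVec_smul, ← hw, hsmul]
  have hstab : ∀ γ ∈ Gm N, ∀ v ∈ Submodule.span (FractionRing R)[X] (N : Set (Fin 2 → K1)),
      γ.val.mulVec v ∈ Submodule.span (FractionRing R)[X] (N : Set (Fin 2 → K1)) := by
    intro γ hγ v hv
    induction hv using Submodule.span_induction with
    | mem v hv => exact Submodule.subset_span ((hγ v).1 hv)
    | zero =>
      rw [Matrix.mulVec_zero]
      exact Submodule.zero_mem _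
    | add v v' _ _ h h' =>
      rw [Matrix.mulVec_add]
      exact Submodule.add_mem _ h h'
    | smul b v _ h =>
      rw [hsmul, Matrix.mulVec_smul, ← hsmul]
      exact Submodule.smul_mem _ _ h
  have hclear : ∀ v ∈ Submodule.span (FractionRing R)[X] (N : Set (Fin 2 → K1)),
      ∃ r : R, r ≠ 0 ∧ (C r : R[X]) • v ∈ N := by
    intro v hv
    induction hv using Submodule.span_induction with
    | mem v hv => exact ⟨1, one_ne_zero, by rw [C_1, one_smul]; exact hv⟩
    | zero => exact ⟨1, one_ne_zero, by rw [smul_zero]; exact N.zero_mem⟩
    | add v v' _ _ h h' =>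
      obtain ⟨r, hr, h⟩ := h
      obtain ⟨r', hr', h'⟩ := h'
      refine ⟨r * r', mul_ne_zero hr hr', ?_⟩
      rw [smul_add]
      refine N.add_mem ?_ ?_
      · rw [mul_comm, C_mul, mul_smul]
        exact N.smul_mem _ h
      · rw [C_mul, mul_smul]
        exact N.smul_mem _ h'
    | smul b v _ h =>
      obtain ⟨r, hr, h⟩ := h
      obtain ⟨t, ht0, ht⟩ := IsLocalization.integerNormalization_spec (nonZeroDivisors R) b
      refine ⟨r * t, mul_ne_zero hr (nonZeroDivisors.ne_zero ht0), ?_⟩
      have e : (C (r * t) : R[X]) • b • v =
          IsLocalization.integerNormalization (nonZeroDivisors R) b • (C r : R[X]) • v := by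
        have e1 : (C (r * t) : R[X]).map (algebraMap R (FractionRing R)) * b =
            (IsLocalization.integerNormalization (nonZeroDivisors R) b).map (algebraMap R (FractionRing R)) *
              (C r : R[X]).map (algebraMap R (FractionRing R)) := by
          have h2 : (algebraMap R (FractionRing R)[X]) t = C (algebraMap R (FractionRing R) t) := rfl
          rw [ht, Polynomial.map_C, Polynomial.map_C, Algebra.smul_def, h2, (algebraMap R (FractionRing R)).map_mul,
            C_mul]
          ring
        rw [hsmulA, hsmulA, hsmulA, hsmul, smul_smul, smul_smul, ← map_mul, ← map_mul, e1]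
      rw [e]
      exact N.smul_mem _ h
  -- matrices
  have hconj : ∀ γ ∈ Gm N, ∀ w : Fin 2 → (FractionRing R)[X], ∃ w' : Fin 2 → (FractionRing R)[X],
      (g⁻¹ * γ * g).val.mulVec (fun i => j (w i)) = fun i => j (w' i) := by
    intro γ hγ w
    obtain ⟨w', hw'⟩ := hspan _ (hstab γ hγ _ (hg2 w))
    refine ⟨w', hginj _ _ ?_⟩
    rw [← hw', Matrix.mulVec_mulVec, Matrix.mulVec_mulVec]
    congr 1
    rw [← Units.val_mul, ← Units.val_mul]
    congr 1
    group
  have hex : ∀ γ : Gm N, ∃ m : Matrix.GeneralLinearGroup (Fin 2) (FractionRing R)[X],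
      Matrix.GeneralLinearGroup.map j m = g⁻¹ * γ * g := by
    intro γ
    refine exists_GL j hjinj _ (hconj γ γ.2) ?_
    have e : (g⁻¹ * (γ : Matrix.GeneralLinearGroup (Fin 2) K1) * g)⁻¹ = g⁻¹ * (γ⁻¹ : Gm N) * g := by
      rw [Subgroup.coe_inv]
      group
    rw [e]
    exact hconj _ (γ⁻¹ : Gm N).2
  choose θ0 hθ0 using hex
  have hjGL : Function.Injective (Matrix.GeneralLinearGroup.map (n := Fin 2) j) := by
    intro m m' h
    refine Units.ext (Matrix.ext fun i k => ?_)
    have h1 := congrArg (fun u : Matrix.GeneralLinearGroup (Fin 2) K1 => u.val i k) h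
    exact hjinj h1
  let θ : Gm N →* Matrix.GeneralLinearGroup (Fin 2) (FractionRing R)[X] :=
    { toFun := θ0
      map_one' := by
        apply hjGL
        rw [hθ0, map_one, Subgroup.coe_one]
        group
      map_mul' := by
        intro a b
        apply hjGL
        rw [hθ0, map_mul, hθ0, hθ0, Subgroup.coe_mul]
        group }
  have hθ : ∀ γ : Gm N, Matrix.GeneralLinearGroup.map j (θ γ) = g⁻¹ * γ * g := hθ0
  have hθw : ∀ (γ : Gm N) (w : Fin 2 → (FractionRing R)[X]),
      g.val.mulVec (fun i => j ((θ γ).val.mulVec w i)) = γ.val.val.mulVec (g.val.mulVec (fun i => j (w i))) := by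
    intro γ w
    have h1 : ((θ γ).val.map j) = (g⁻¹ * (γ : Matrix.GeneralLinearGroup (Fin 2) K1) * g).val := congrArg Units.val (hθ γ)
    rw [← mulVec_map j, h1, Matrix.mulVec_mulVec, Matrix.mulVec_mulVec, ← Units.val_mul, ← Units.val_mul]
    congr 2
    group
  refine ⟨θ, ?_, ?_⟩
  · intro a b hab
    have h1 := congrArg (Matrix.GeneralLinearGroup.map j) hab
    rw [hθ, hθ] at h1
    exact Subtype.ext (mul_left_cancel (mul_right_cancel h1))
  · intro c
    let ev : (FractionRing R)[X] →+* FractionRing R := Polynomial.evalRingHom (algebraMap R (FractionRing R) c)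
    let Nc : Submodule R (Fin 2 → FractionRing R) :=
      { carrier := {u | ∃ w : Fin 2 → (FractionRing R)[X], g.val.mulVec (fun i => j (w i)) ∈ N ∧ u = fun i => ev (w i)}
        add_mem' := by
          rintro u u' ⟨w, hw, rfl⟩ ⟨w', hw', rfl⟩
          refine ⟨w + w', ?_, ?_⟩
          · have : (fun i => j ((w + w') i)) = (fun i => j (w i)) + fun i => j (w' i) := by
              funext i
              exact map_add j _ _
            rw [this, Matrix.mulVec_add]
            exact N.add_mem hw hw'
          · funext i
            exact (map_add ev _ _).symm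
        zero_mem' := by
          refine ⟨0, ?_, ?_⟩
          · have : (fun i => j ((0 : Fin 2 → (FractionRing R)[X]) i)) = (0 : Fin 2 → K1) := by
              funext i
              exact map_zero j
            rw [this, Matrix.mulVec_zero]
            exact N.zero_mem
          · funext i
            exact (map_zero ev).symm
        smul_mem' := by
          rintro r u ⟨w, hw, rfl⟩
          refine ⟨fun i => C (algebraMap R (FractionRing R) r) * w i, ?_, ?_⟩
          · have : (fun i => j (C (algebraMap R (FractionRing R) r) * w i)) =
                j (C (algebraMap R (FractionRing R) r)) • fun i => j (w i) := by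
              funext i
              exact map_mul j _ _
            rw [this, Matrix.mulVec_smul, ← Polynomial.map_C, ← hsmulA]
            exact N.smul_mem _ hw
          · funext i
            show r • ev (w i) = ev (C _ * w i)
            rw [map_mul, Algebra.smul_def]
            congr 1
            show _ = Polynomial.eval _ (C _)
            rw [Polynomial.eval_C] }
    have hfwd : ∀ (γ : Gm N) (u : Fin 2 → FractionRing R), u ∈ Nc →
        (Matrix.GeneralLinearGroup.map ev (θ γ)).val.mulVec u ∈ Nc := by
      rintro γ u ⟨w, hw, rfl⟩
      refine ⟨(θ γ).val.mulVec w, ?_, ?_⟩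
      · rw [hθw]
        exact (γ.2 _).1 hw
      · exact mulVec_map ev _ _
    refine ⟨Nc, ?_, ?_, ?_⟩
    · -- finitely generated
      obtain ⟨S, hS⟩ := hN
      have hSN : ∀ v ∈ S, v ∈ N := fun v hv => hS ▸ Submodule.subset_span hv
      choose! w hw using hg1
      refine ⟨S.image (fun v => fun i => ev (w v i)), ?_⟩
      apply le_antisymm
      · rw [Submodule.span_le]
        intro u hu
        rw [Finset.coe_image] at hu
        obtain ⟨v, hv, rfl⟩ := hu
        exact ⟨w v, by rw [← hw v (hSN v hv)]; exact hSN v hv, rfl⟩
      · rintro u ⟨w', hw', rfl⟩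
        have claim : ∀ v ∈ Submodule.span R[X] (S : Set (Fin 2 → K1)), ∀ w' : Fin 2 → (FractionRing R)[X],
            v = g.val.mulVec (fun i => j (w' i)) →
            (fun i => ev (w' i)) ∈ Submodule.span R ((S.image (fun v => fun i => ev (w v i)) : Finset (Fin 2 → FractionRing R)) :
              Set (Fin 2 → FractionRing R)) := by
          intro v hv
          induction hv using Submodule.span_induction with
          | mem v hv =>
            intro w' hv'
            have h1 : w' = w v := hgj _ _ (by rw [← hv', ← hw v (hSN v hv)])
            rw [h1]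
            apply Submodule.subset_span
            rw [Finset.coe_image]
            exact ⟨v, hv, rfl⟩
          | zero =>
            intro w' hv'
            have h1 : w' = 0 := by
              apply hgj
              rw [← hv']
              have : (fun i => j ((0 : Fin 2 → (FractionRing R)[X]) i)) = (0 : Fin 2 → K1) := by
                funext i
                exact map_zero j
              rw [this, Matrix.mulVec_zero]
            rw [h1]
            have : (fun i => ev ((0 : Fin 2 → (FractionRing R)[X]) i)) = (0 : Fin 2 → FractionRing R) := by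
              funext i
              exact map_zero ev
            rw [this]
            exact Submodule.zero_mem _
          | add v v' hv hv2 h h' =>
            intro w' hw'
            rw [hS] at hv hv2
            have h1 : w' = w v + w v' := by
              apply hgj
              rw [← hw']
              have : (fun i => j ((w v + w v') i)) = (fun i => j (w v i)) + fun i => j (w v' i) := by
                funext i
                exact map_add j _ _
              rw [this, Matrix.mulVec_add, ← hw v hv, ← hw v' hv2]
            rw [h1]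
            have : (fun i => ev ((w v + w v') i)) = (fun i => ev (w v i)) + fun i => ev (w v' i) := by
              funext i
              exact map_add ev _ _
            rw [this]
            exact Submodule.add_mem _ (h _ (hw v hv)) (h' _ (hw v' hv2))
          | smul p v hv h =>
            intro w' hw'
            rw [hS] at hv
            have h1 : w' = fun i => p.map (algebraMap R (FractionRing R)) * w v i := by
              apply hgj
              rw [← hw']
              have : (fun i => j (p.map (algebraMap R (FractionRing R)) * w v i)) =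
                  j (p.map (algebraMap R (FractionRing R))) • fun i => j (w v i) := by
                funext i
                exact map_mul j _ _
              rw [this, Matrix.mulVec_smul, ← hw v hv, hsmulA]
            rw [h1]
            have : (fun i => ev (p.map (algebraMap R (FractionRing R)) * w v i)) =
                (p.eval c) • fun i => ev (w v i) := by
              funext i
              show ev (_ * _) = p.eval c • ev (w v i)
              rw [map_mul, Algebra.smul_def]
              congr 1
              show Polynomial.eval _ _ = _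
              rw [Polynomial.eval_map, Polynomial.eval₂_at_apply]
            rw [this]
            exact Submodule.smul_mem _ _ (h _ (hw v hv))
        exact claim _ (by rw [hS]; exact hw') w' rfl
    · -- spans
      intro u
      obtain ⟨r, hr, h⟩ := hclear _ (hg2 fun i => C (u i))
      refine ⟨r, hr, fun i => C (algebraMap R (FractionRing R) r) * C (u i), ?_, ?_⟩
      · have : (fun i => j (C (algebraMap R (FractionRing R) r) * C (u i))) =
            j (C (algebraMap R (FractionRing R) r)) • fun i => j (C (u i)) := by
          funext i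
          exact map_mul j _ _
        rw [this, Matrix.mulVec_smul, ← Polynomial.map_C, ← hsmulA]
        exact h
      · funext i
        show r • u i = ev (C _ * C (u i))
        rw [← C_mul, Algebra.smul_def]
        show _ = Polynomial.eval _ (C _)
        rw [Polynomial.eval_C]
    · intro γ u
      refine ⟨hfwd γ u, fun h => ?_⟩
      have h1 := hfwd γ⁻¹ _ h
      rw [Matrix.mulVec_mulVec, ← Units.val_mul, ← map_mul, ← map_mul, inv_mul_cancel, map_one, map_one, Units.val_one,
        Matrix.one_mulVec] at h1
      exact h1

end Pool.Agent.H54.PL
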