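import Mathlib
import Pool.Agent.H54.PL.The
import Pool.Agent.H54.PL.Inf
import Pool.Agent.H54.PL.Spc
import Pool.Agent.H54.PL.Loc
import Pool.Agent.H54.PL.Iso

/-!
# One more variable
-/

set_option autoImplicit false

namespace Pool.Agent.H54.PL

open Polynomial Pool.Agent.H98.FJ Pool.Agent.H93.TR

variable {C : (G : Type) → [Group G] → Prop}

theorem lc_step (hC : Inherits C) (hE : Extension C) (R : Type) [CommRing R] [IsDomain R] [CharZero R]
    (h : LC C R) : LC C R[X] := by
  intro K1 _ _ _ N hN hs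
  obtain ⟨θ, hθ, hev⟩ := exists_theta R K1 N hN hs
  obtain ⟨V, act, X, hX, hdeg⟩ := exists_tree (FractionRing R)
  choose Nc hfg hsp hmem using hev
  have hz : CharZero (FractionRing R) := charZero_of_injective_algebraMap (IsFractionRing.injective R (FractionRing R))
  letI : MulAction (Gm N) V := MulAction.compHom V θ
  have hsm : ∀ (γ : Gm N) (v : V), γ • v = θ γ • v := fun γ v => rfl
  have hX' : OnTree (Gm N) X := ⟨hX.tree, fun γ v w hvw => hX.adj (θ γ) v w hvw⟩
  let f : ∀ n : ℕ, Gm N →* Gm (Nc (n : R)) := fun n =>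
    ((Matrix.GeneralLinearGroup.map (Polynomial.evalRingHom (algebraMap R (FractionRing R) (n : R)))).comp
      θ).codRestrict (Gm (Nc (n : R))) (fun γ => hmem (n : R) γ)
  refine local_tree hC hE hX' (fun n => Gm (Nc (n : R))) (fun n => h _ _ (hfg _) (hsp _)) f ?_
  intro v
  obtain ⟨D, hD⟩ := hdeg v
  refine ⟨D, fun γ hv hγ => hθ ?_⟩
  rw [map_one]
  refine eq_one_of_eval (FractionRing R) (hD (θ γ) ((hsm γ v).symm.trans hv)) ?_
  intro n hn
  have h1 := congrArg Subtype.val (hγ n hn)
  have h2 : algebraMap R (FractionRing R) (n : R) = (n : FractionRing R) := map_natCast _ n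
  rw [← h2]
  exact h1

/-- polynomial rings over a field -/
theorem lc_mvPolynomial (hC : Inherits C) (hE : Extension C) (K : Type) [Field K] [CharZero K]
    (h : C (Matrix.GeneralLinearGroup (Fin 2) K)) (n : ℕ) : LC C (MvPolynomial (Fin n) K) := by
  induction n with
  | zero => exact lc_equiv (MvPolynomial.isEmptyRingEquiv K (Fin 0)).symm (lc_field hC K h)
  | succ n ih =>
    have : CharZero (MvPolynomial (Fin n) K) := inferInstance
    exact lc_equiv (MvPolynomial.finSuccEquiv K n).toRingEquiv.symm (lc_step hC hE (MvPolynomial (Fin n) K) ih)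

end Pool.Agent.H54.PL
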