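import Mathlib
import Pool.Agent.H54.PL.Main

/-!
# Any set of variables
-/

set_option autoImplicit false

namespace Pool.Agent.H54.PL

open MvPolynomial Pool.Agent.H98.FJ Pool.Agent.H54.PA

variable {C : (G : Type) → [Group G] → Prop}

/-- restriction to the polynomials over `S` -/
theorem exists_rs (S K : Type) [CommRing S] [Field K] [Algebra S K] (h : Function.Injective (algebraMap S K)) :
    ∃ ρ : GR S K →* (MvPolynomial (Fin 2) S ≃ₐ[S] MvPolynomial (Fin 2) S), Function.Injective ρ := by
  have hm : Function.Injective (MvPolynomial.map (σ := Fin 2) (algebraMap S K)) := MvPolynomial.map_injective _ h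
  have hex : ∀ (φ : GR S K) (p : MvPolynomial (Fin 2) S), ∃ q : MvPolynomial (Fin 2) S,
      MvPolynomial.map (algebraMap S K) q = (φ : Au K) (MvPolynomial.map (algebraMap S K) p) := by
    intro φ p
    exact (φ.2 (MvPolynomial.map (algebraMap S K) p)).1 ⟨p, rfl⟩
  choose r hr using hex
  have hinv : ∀ (φ : GR S K) (p : MvPolynomial (Fin 2) S), r φ (r φ⁻¹ p) = p := by
    intro φ p
    apply hm
    rw [hr, hr]
    exact AlgEquiv.apply_symm_apply (φ : Au K) _
  have hinv' : ∀ (φ : GR S K) (p : MvPolynomial (Fin 2) S), r φ⁻¹ (r φ p) = p := by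
    intro φ p
    apply hm
    rw [hr, hr]
    exact AlgEquiv.symm_apply_apply (φ : Au K) _
  let ρ : GR S K → (MvPolynomial (Fin 2) S ≃ₐ[S] MvPolynomial (Fin 2) S) := fun φ =>
    { toFun := r φ
      invFun := r φ⁻¹
      left_inv := hinv' φ
      right_inv := hinv φ
      map_mul' := fun p q => hm (by rw [hr, map_mul, map_mul, map_mul, hr, hr])
      map_add' := fun p q => hm (by rw [hr, map_add, map_add, map_add, hr, hr])
      commutes' := fun a => hm (by
        rw [hr, show (algebraMap S (MvPolynomial (Fin 2) S) a) = C a from rfl, MvPolynomial.map_C]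
        exact AlgEquiv.commutes (φ : Au K) (algebraMap S K a)) }
  have hρ : ∀ φ p, ρ φ p = r φ p := fun φ p => rfl
  refine ⟨{ toFun := ρ, map_one' := ?_, map_mul' := ?_ }, ?_⟩
  · apply AlgEquiv.ext
    intro p
    apply hm
    rw [hρ, hr]
    rfl
  · intro φ ψ
    apply AlgEquiv.ext
    intro p
    apply hm
    show MvPolynomial.map (algebraMap S K) (r (φ * ψ) p) = MvPolynomial.map (algebraMap S K) (r φ (r ψ p))
    rw [hr, hr, hr]
    rfl
  · intro φ ψ hφψ
    apply Subtype.ext
    refine au_ext' fun i => ?_
    have h1 : r φ (X i) = r ψ (X i) := congrArg (fun e : MvPolynomial (Fin 2) S ≃ₐ[S] MvPolynomial (Fin 2) S => e (X i)) hφψ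
    have h2 := hr φ (X i)
    have h3 := hr ψ (X i)
    rw [MvPolynomial.map_X] at h2 h3
    rw [← h2, ← h3, h1]

/-- the automorphisms over the images of two rings -/
theorem GR_mono {S T K : Type} [CommRing S] [CommRing T] [Field K] [Algebra S K] [Algebra T K]
    (h : (algebraMap S K).range ≤ (algebraMap T K).range) : GR S K ≤ GR T K := by
  have h1 : ∀ p, p ∈ PR S K → p ∈ PR T K := fun p hp => mem_PR.2 fun e => h (mem_PR.1 hp e)
  intro φ hφ
  refine mem_GR (fun i => h1 _ ((hφ (X i)).1 (X_mem_PR S i))) (fun i => h1 _ (((GR S K).inv_mem hφ (X i)).1 (X_mem_PR S i)))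

/-- polynomial rings over fields in any set of variables -/
theorem poly_any (hC : Inherits C) (hE : Extension C) (hT : AcylTrees C)
    (hS : ∀ (G : Type) [Group G], Group.IsSolvable G → C G) (K : Type) [Field K] [CharZero K] (I : Type) :
    C (MvPolynomial (Fin 2) (MvPolynomial I K) ≃ₐ[MvPolynomial I K]
      MvPolynomial (Fin 2) (MvPolynomial I K)) ↔ C (Matrix.GeneralLinearGroup (Fin 2) K) := by
  classical
  constructor
  · intro h
    obtain ⟨Ψ, hΨ⟩ := gl_au (MvPolynomial I K)
    refine hC.of_injective (Ψ.comp (Matrix.GeneralLinearGroup.map (MvPolynomial.C : K →+* MvPolynomial I K))) ?_ h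
    refine hΨ.comp ?_
    exact Pool.Agent.H54.TT.gl2map_injective _ (MvPolynomial.C_injective _ _)
  · intro h
    have hinj : Function.Injective (algebraMap (MvPolynomial I K) (FractionRing (MvPolynomial I K))) :=
      IsFractionRing.injective (MvPolynomial I K) (FractionRing (MvPolynomial I K))
    obtain ⟨β, hβ⟩ := bc_inj (MvPolynomial I K) (FractionRing (MvPolynomial I K)) hinj
    refine hC.of_injective β hβ ?_
    -- the ring homomorphism of the polynomials in the variables of `s`
    let j : ∀ s : Finset I, MvPolynomial s K →+* FractionRing (MvPolynomial I K) := fun s =>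
      (algebraMap (MvPolynomial I K) (FractionRing (MvPolynomial I K))).comp
        (MvPolynomial.rename (R := K) (Subtype.val : s → I)).toRingHom
    have hj : ∀ s, Function.Injective (j s) := fun s =>
      hinj.comp (MvPolynomial.rename_injective _ Subtype.val_injective)
    have hr : ∀ (s : Finset I) (q : MvPolynomial I K), (∀ i ∈ q.vars, i ∈ s) →
        algebraMap (MvPolynomial I K) (FractionRing (MvPolynomial I K)) q ∈ (j s).range := by
      intro s q hq
      obtain ⟨q', hq'⟩ := MvPolynomial.exists_rename_eq_of_vars_subset_range q (Subtype.val : s → I)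
        Subtype.val_injective (fun i hi => ⟨⟨i, hq i hi⟩, rfl⟩)
      exact ⟨q', congrArg (algebraMap (MvPolynomial I K) (FractionRing (MvPolynomial I K))) hq'⟩
    refine hC.union (ι := Finset I)
      (fun s => (@GR (MvPolynomial s K) (FractionRing (MvPolynomial I K)) _ _ (j s).toAlgebra).comap
        (GR (MvPolynomial I K) (FractionRing (MvPolynomial I K))).subtype) ?_ ?_ ?_
    · intro s t hst
      refine Subgroup.comap_mono ?_
      refine @GR_mono (MvPolynomial s K) (MvPolynomial t K) (FractionRing (MvPolynomial I K)) _ _ _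
        (j s).toAlgebra (j t).toAlgebra ?_
      rintro _ ⟨q, rfl⟩
      refine hr t (MvPolynomial.rename (Subtype.val : s → I) q) fun i hi => ?_
      obtain ⟨i', -, rfl⟩ := Finset.mem_image.1 (MvPolynomial.vars_rename (Subtype.val : s → I) q hi)
      exact hst i'.2
    · intro φ
      have h1 : ∀ i, ∃ q, MvPolynomial.map (algebraMap (MvPolynomial I K) (FractionRing (MvPolynomial I K))) q =
          (φ : Au (FractionRing (MvPolynomial I K))) (X i) := fun i => (φ.2 (X i)).1 (X_mem_PR _ i)
      have h2 : ∀ i, ∃ q, MvPolynomial.map (algebraMap (MvPolynomial I K) (FractionRing (MvPolynomial I K))) q =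
          (φ⁻¹ : Au (FractionRing (MvPolynomial I K))) (X i) :=
        fun i => (((GR _ _).inv_mem φ.2) (X i)).1 (X_mem_PR _ i)
      choose q hq using h1
      choose q' hq' using h2
      let s : Finset I := (Finset.univ.biUnion fun i => (q i).support.biUnion fun e => (coeff e (q i)).vars) ∪
        (Finset.univ.biUnion fun i => (q' i).support.biUnion fun e => (coeff e (q' i)).vars)
      have h3 : ∀ (i : Fin 2) (e : Fin 2 →₀ ℕ) (x : I), x ∈ (coeff e (q i)).vars → x ∈ s := by
        intro i e x hx
        refine Finset.mem_union_left _ (Finset.mem_biUnion.2 ⟨i, Finset.mem_univ _, Finset.mem_biUnion.2 ⟨e, ?_, hx⟩⟩)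
        rw [mem_support_iff]
        intro h0
        rw [h0, MvPolynomial.vars_0] at hx
        exact Finset.notMem_empty _ hx
      have h4 : ∀ (i : Fin 2) (e : Fin 2 →₀ ℕ) (x : I), x ∈ (coeff e (q' i)).vars → x ∈ s := by
        intro i e x hx
        refine Finset.mem_union_right _ (Finset.mem_biUnion.2 ⟨i, Finset.mem_univ _, Finset.mem_biUnion.2 ⟨e, ?_, hx⟩⟩)
        rw [mem_support_iff]
        intro h0
        rw [h0, MvPolynomial.vars_0] at hx
        exact Finset.notMem_empty _ hx
      refine ⟨s, ?_⟩
      refine @mem_GR (MvPolynomial s K) (FractionRing (MvPolynomial I K)) _ _ (j s).toAlgebra _ (fun i => ?_) (fun i => ?_)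
      · refine (@mem_PR (MvPolynomial s K) (FractionRing (MvPolynomial I K)) _ _ (j s).toAlgebra _).2 fun e => ?_
        have h5 : coeff e ((φ : Au (FractionRing (MvPolynomial I K))) (X i)) =
            algebraMap (MvPolynomial I K) (FractionRing (MvPolynomial I K)) (coeff e (q i)) := by
          rw [← hq, MvPolynomial.coeff_map]
        exact h5 ▸ hr s _ (h3 i e)
      · refine (@mem_PR (MvPolynomial s K) (FractionRing (MvPolynomial I K)) _ _ (j s).toAlgebra _).2 fun e => ?_
        have h5 : coeff e ((φ⁻¹ : Au (FractionRing (MvPolynomial I K))) (X i)) =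
            algebraMap (MvPolynomial I K) (FractionRing (MvPolynomial I K)) (coeff e (q' i)) := by
          rw [← hq', MvPolynomial.coeff_map]
        exact h5 ▸ hr s _ (h4 i e)
    · intro s
      obtain ⟨ρ, hρ⟩ := @exists_rs (MvPolynomial s K) (FractionRing (MvPolynomial I K)) _ _ (j s).toAlgebra (hj s)
      refine hC.of_injective (H := MvPolynomial (Fin 2) (MvPolynomial s K) ≃ₐ[MvPolynomial s K]
        MvPolynomial (Fin 2) (MvPolynomial s K)) (ρ.comp
        { toFun := fun x => ⟨x.1.1, x.2⟩
          map_one' := rfl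
          map_mul' := fun _ _ => rfl }) ?_ ?_
      · refine hρ.comp ?_
        intro x y hxy
        exact Subtype.ext (Subtype.ext (Subtype.mk.inj hxy))
      · exact noeth hC hE hT hS (MvPolynomial s K) (lc_equiv
          (MvPolynomial.renameEquiv K (Fintype.equivFin s).symm).toRingEquiv
          (lc_mvPolynomial hC hE K h (Fintype.card s)))

end Pool.Agent.H54.PL
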