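import Pool.Agent.H54.PL.Anyv

/-!
# Polynomial automorphisms of the plane and the Farrell-Jones conjecture

Let `C` be a class of groups with the inheritance properties `Inherits`, `Extension` and `AcylTrees` (groups which act
acylindrically on trees with vertex stabilisers in `C` are in `C`) which contains the solvable groups and the groups
`GL n ℚ`. The class of the groups satisfying the Farrell-Jones conjecture for A-theory with coefficients and finite wreath
products is such a class (Knopf; Bunke, Kasprowski, Winges; Enkelmann, Lück, Pieper, Ullmann, Winges; Kasprowski, Ullmann,
Wegner, Winges).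

(1) The group of all polynomial automorphisms of the affine plane over the algebraic closure of `ℚ` is in `C`. More generally,
with `K` the algebraic closure of `ℚ` and `R = K[zᵢ : i ∈ I]`, for any set `I`, the automorphism group of the `R`-algebra `R[x, y]`
is in `C`. For finite `I` with `n` elements these are the automorphisms of the affine space of dimension `n + 2` which fix `n`
coordinates; for `n = 1` Nagata's automorphism is one of them.

(2) For every field `K` of characteristic zero and every set `I`, with `R = K[zᵢ : i ∈ I]`, the automorphism group of the
`R`-algebra `R[x, y]` is in `C` if and only if `GL₂(K)` is in `C`.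

(3) For every principal ideal domain `R` of characteristic zero the automorphism group of the `R`-algebra `R[x, y]` is in `C` if
and only if `GL₂(R)` is in `C`.

Proof. By the theorem of Jung (proved in Lean in characteristic zero, after Shestakov and Umirbaev) the group `G` of the
automorphisms of `F[x, y]`, `F` a field of characteristic zero, acts on a tree; its vertices are the cosets of the
group `A` of the affine automorphisms and of the group `E` of the triangular automorphisms. The new point is a uniform
bound: the pointwise stabiliser of a path of length seven injects into the group of the roots of unity of `F` (an element of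
the stabiliser of `w₀ v₀ w₁ v₁ w₂ v₂ w₃`, conjugated to `A ∩ E`, has the form `x ↦ α x + .., y ↦ β y + γ`, and the polynomials
of degrees `n, m ≥ 2` of the triangular automorphisms at `w₁` and `w₂` give `α = β ^ n`, `β = α ^ m`; it is determined by
`β`). This group is finite if `F` is finitely generated over `ℚ`; over `ℂ` there is no such bound. So `G` is in `C` if `A` is in
`C` (`E` is solvable). If `R` is a noetherian domain with field of fractions `K` then the stabiliser of a vertex `g A` in
the automorphism group of `R[x, y]` preserves the lattice `g(K + Kx + Ky) ∩ R[x, y]` modulo the constants, of rank two, and the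
elements which act trivially on it commute. If `R` is a principal ideal domain the lattice is free. If `R = K[z₁, ..., zₙ]` the
automorphism groups of all lattices of rank two over `R` are in `C` by induction on `n`: such a group acts on the tree of the
valuation `zₙ = ∞`; elements of the stabiliser of a vertex have bounded degree in `zₙ`, so that they are determined by their
specialisations at finitely many values of `zₙ`, and these are automorphisms of lattices over `K[z₁, ..., zₙ₋₁]`. For an infinite
set of variables the group is a directed union.
-/

set_option autoImplicit false

namespace Pool.Agent.H54.PL.Draft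

open Pool.Agent.H98.FJ Pool.Agent.H54.PA Pool.Agent.H54.PL

theorem result (C : (G : Type) → [Group G] → Prop) (hC : Inherits C) (hE : Extension C) (hT : AcylTrees C)
    (hS : ∀ (G : Type) [Group G], Group.IsSolvable G → C G)
    (hGL : ∀ n : ℕ, C (Matrix.GeneralLinearGroup (Fin n) ℚ)) :
    C (MvPolynomial (Fin 2) (AlgebraicClosure ℚ) ≃ₐ[AlgebraicClosure ℚ] MvPolynomial (Fin 2) (AlgebraicClosure ℚ)) ∧
    (∀ I : Type, C (MvPolynomial (Fin 2) (MvPolynomial I (AlgebraicClosure ℚ)) ≃ₐ[MvPolynomial I (AlgebraicClosure ℚ)]
      MvPolynomial (Fin 2) (MvPolynomial I (AlgebraicClosure ℚ)))) ∧
    (∀ (K : Type) [Field K] [CharZero K] (I : Type),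
      C (MvPolynomial (Fin 2) (MvPolynomial I K) ≃ₐ[MvPolynomial I K] MvPolynomial (Fin 2) (MvPolynomial I K)) ↔
        C (Matrix.GeneralLinearGroup (Fin 2) K)) ∧
    (∀ (R : Type) [CommRing R] [IsDomain R] [IsPrincipalIdealRing R] [CharZero R],
      C (MvPolynomial (Fin 2) R ≃ₐ[R] MvPolynomial (Fin 2) R) ↔ C (Matrix.GeneralLinearGroup (Fin 2) R)) :=
  ⟨main_a hC hT hGL, fun I => (poly_any hC hE hT hS (AlgebraicClosure ℚ) I).2 (gl_qbar hC hGL),
    fun K _ _ I => poly_any hC hE hT hS K I, fun R _ _ _ _ => pid hC hE hT hS R⟩

end Pool.Agent.H54.PL.Draft
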